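import Mathlib
import Pool.Agent.Y254.NR.Core
import Pool.Agent.Y254.NR.Sys

/-!
# Nice recurrence: spectral description, uniformity, van der Corput sets

For a set `R` of natural numbers the following are equivalent: `R` is a set of nice recurrence; `R` is
a set of ergodic nice recurrence; a uniform version for all square integrable functions of all systems
at once with the conditional expectation on the invariant sets in place of the mean; the Hilbert space
version for isometries; the version for measures on the circle; every positive definite sequence is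
nearly nonnegative somewhere on `R`; for every `ε > 0` some convex combination of the functions
`cos (n x)`, `n ∈ R`, is at least `-ε` everywhere. In particular such a set is a van der Corput set,
and it stays a set of nice recurrence after intersection with `kℕ` and removal of a finite set.
-/

set_option autoImplicit false
open MeasureTheory Finset

namespace Pool.Agent.Results.MP_e00215_an.SpectralNiceRecurrence

universe u v w z

/-- `R` is a set of nice recurrence: for every measure preserving system `(X, μ, T)` on a probability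
space, every measurable `A` with `μ A > 0` and every `ε > 0` there is `n ∈ R` with
`μ (A ∩ T⁻ⁿ A) > μ(A)² - ε`. -/
def NiceRecurrence (R : Set ℕ) : Prop :=
  ∀ (X : Type u) [MeasurableSpace X] (μ : Measure X) [IsProbabilityMeasure μ] (T : X → X),
    MeasurePreserving T μ μ → ∀ A : Set X, MeasurableSet A → 0 < μ A → ∀ ε : ℝ, 0 < ε →
      ∃ n ∈ R, (μ A).toReal ^ 2 - ε < (μ (A ∩ T^[n] ⁻¹' A)).toReal

/-- `R` is a set of ergodic nice recurrence: the same condition for ergodic systems only. -/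
def ErgodicNiceRecurrence (R : Set ℕ) : Prop :=
  ∀ (X : Type u) [MeasurableSpace X] (μ : Measure X) [IsProbabilityMeasure μ] (T : X → X),
    Ergodic T μ → ∀ A : Set X, MeasurableSet A → 0 < μ A → ∀ ε : ℝ, 0 < ε →
      ∃ n ∈ R, (μ A).toReal ^ 2 - ε < (μ (A ∩ T^[n] ⁻¹' A)).toReal

/-- Uniform conditional recurrence: for every `ε > 0` there is a finite subset `F` of `R` such that for
**all** measure preserving systems `(X, μ, T)` and all `f ∈ L²(μ)` some `n ∈ F` satisfies
`∫ f · f∘Tⁿ ≥ ∫ E(f | I)² - ε ∫ f²`, where `I` is the σ-algebra of the measurable `T`-invariant sets. -/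
def UniformConditionalRecurrence (R : Set ℕ) : Prop :=
  ∀ ε : ℝ, 0 < ε → ∃ F : Finset ℕ, (∀ n ∈ F, n ∈ R) ∧
    ∀ (X : Type u) [MeasurableSpace X] (μ : Measure X) [IsProbabilityMeasure μ] (T : X → X),
      MeasurePreserving T μ μ → ∀ f : X → ℝ, MemLp f 2 μ →
        ∃ n ∈ F, ∫ x, ((μ[f | MeasurableSpace.invariants T]) x) ^ 2 ∂μ - ε * ∫ x, f x ^ 2 ∂μ
          ≤ ∫ x, f x * f (T^[n] x) ∂μ

/-- Hilbert space recurrence: for every isometry `U` of a complex Hilbert space and every vector `x`,
with `v` the orthogonal projection of `x` on the space of the fixed vectors of `U`, and every `ε > 0`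
there is `n ∈ R` with `Re ⟨x, Uⁿ x⟩ > ‖v‖² - ε`. -/
def HilbertRecurrence (R : Set ℕ) : Prop :=
  ∀ (H : Type u) [NormedAddCommGroup H] [InnerProductSpace ℂ H] [CompleteSpace H] (U : H →ₗᵢ[ℂ] H)
    (x v : H), U v = v → (∀ y : H, U y = y → inner ℂ y (x - v) = (0 : ℂ)) → ∀ ε : ℝ, 0 < ε →
      ∃ n ∈ R, ‖v‖ ^ 2 - ε < (inner ℂ x (U^[n] x) : ℂ).re

/-- Spectral recurrence: for every finite Borel measure `σ` on the circle `ℝ/ℤ` and every `ε > 0` there
is `n ∈ R` with `∫ cos (2π n t) dσ(t) > σ({0}) - ε` (`fourier n t = exp (2π i n t)`). -/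
def SpectralRecurrence (R : Set ℕ) : Prop :=
  ∀ (σ : Measure UnitAddCircle) [IsFiniteMeasure σ] (ε : ℝ), 0 < ε →
    ∃ n ∈ R, (σ {0}).toReal - ε < ∫ t : UnitAddCircle, (fourier (n : ℤ) t).re ∂σ

/-- `r(|j - k|)` is a positive semidefinite kernel on `ℕ`. -/
def PositiveDefinite (r : ℕ → ℝ) : Prop :=
  ∀ (N : ℕ) (a : ℕ → ℝ), 0 ≤ ∑ j ∈ range N, ∑ k ∈ range N, a j * a k * r ((j : ℤ) - k).natAbs

/-- No positive definite sequence is bounded above by a negative number on `R`. -/
def PositiveDefiniteRecurrence (R : Set ℕ) : Prop :=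
  ∀ r : ℕ → ℝ, PositiveDefinite r → ∀ ε : ℝ, 0 < ε → ∃ n ∈ R, -ε < r n

/-- For every `ε > 0` some finite convex combination of the functions `cos (n x)`, `n ∈ R`, is at least
`-ε` everywhere. -/
def CosineRecurrence (R : Set ℕ) : Prop :=
  ∀ ε : ℝ, 0 < ε → ∃ (F : Finset ℕ) (a : ℕ → ℝ), (∀ n ∈ F, n ∈ R) ∧ (∀ n, 0 ≤ a n) ∧
    ∑ n ∈ F, a n = 1 ∧ ∀ x : ℝ, -ε ≤ ∑ n ∈ F, a n * Real.cos (n * x)

/-- `R` is a van der Corput set (spectral form): a finite Borel measure on the circle whose Fourier
coefficients vanish on `R` has no atom at `0`. -/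
def VanDerCorput (R : Set ℕ) : Prop :=
  ∀ (σ : Measure UnitAddCircle) [IsFiniteMeasure σ],
    (∀ n ∈ R, ∫ t : UnitAddCircle, fourier (n : ℤ) t ∂σ = 0) → σ {0} = 0

open Pool.Agent.Y254.NR

theorem pdN_iff (R : Set ℕ) : PDN R ↔ PositiveDefiniteRecurrence R := Iff.rfl

/-- from ergodic nice recurrence in any universe to positive definite sequences -/
theorem pd_of_ergodic (R : Set ℕ) (h : ErgodicNiceRecurrence.{v} R) : PDN R := by
  intro r hr ε hε
  by_contra hcon
  push Not at hcon
  obtain ⟨Y, mY, ν, pν, S, B, hS, hB, hB0, ε', hε', hR⟩ := core_pd r hr hε R hcon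
  let e : Y ≃ᵐ ULift.{v, 0} Y := MeasurableEquiv.ulift.symm
  have hmp : MeasurePreserving e ν (ν.map e) := ⟨e.measurable, rfl⟩
  have pν' : IsProbabilityMeasure (ν.map e) := Measure.isProbabilityMeasure_map e.measurable.aemeasurable
  have hS' : Ergodic (e ∘ S ∘ e.symm) (ν.map e) := hmp.ergodic_conjugate_iff.2 hS
  have hB' : MeasurableSet (e.symm ⁻¹' B) := e.symm.measurable hB
  have hval : ∀ D : Set Y, MeasurableSet D → (ν.map e) (e.symm ⁻¹' D) = ν D := by
    intro D hD
    rw [e.map_apply, ← Set.preimage_comp]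
    simp
  obtain ⟨n, hn, hlt⟩ := h (ULift.{v, 0} Y) (ν.map e) (e ∘ S ∘ e.symm) hS' (e.symm ⁻¹' B) hB'
    (by rw [hval B hB]; exact hB0) ε' hε'
  have hit : ∀ n y, (e ∘ S ∘ e.symm)^[n] y = e (S^[n] (e.symm y)) := by
    intro n y
    induction n with
    | zero => simp
    | succ n ih => rw [Function.iterate_succ_apply', ih, Function.iterate_succ_apply']; simp
  have hset : e.symm ⁻¹' B ∩ (e ∘ S ∘ e.symm)^[n] ⁻¹' (e.symm ⁻¹' B) = e.symm ⁻¹' (B ∩ S^[n] ⁻¹' B) := by
    ext y
    simp only [Set.mem_inter_iff, Set.mem_preimage, hit, MeasurableEquiv.symm_apply_apply]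
  rw [hset, hval _ (hB.inter ((hS.toMeasurePreserving.iterate n).measurable hB)), hval B hB] at hlt
  exact absurd (hR n hn) (not_le.2 hlt)

theorem uniform_of_pd (R : Set ℕ) (h : PDN R) : UniformConditionalRecurrence.{w} R := by
  intro ε hε
  obtain ⟨F, a, hF, ha, hsum, hx⟩ := cos_of_pdN h ε hε
  refine ⟨F, hF, ?_⟩
  intro X _ μ _ T hT f hf
  exact cond_of_cos hT f hf hε ha hsum hx

theorem nice_of_uniform (R : Set ℕ) (h : UniformConditionalRecurrence.{u} R) : NiceRecurrence.{u} R := by
  intro X _ μ _ T hT A hA _ ε hε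
  obtain ⟨F, hF, hu⟩ := h (ε / 2) (by positivity)
  have hfL : MemLp (A.indicator (fun _ => (1:ℝ))) 2 μ := (memLp_const _).indicator hA
  obtain ⟨n, hn, hle⟩ := hu X μ T hT _ hfL
  refine ⟨n, hF n hn, ?_⟩
  rw [int_inter hT hA n] at hle
  have h1 := sq_measure_le_condExp (μ := μ) T hA
  have h2 : ∫ x, A.indicator (fun _ => (1:ℝ)) x ^ 2 ∂μ ≤ 1 := by
    have h3 := int_inter hT hA 0
    simp only [Function.iterate_zero, id_eq, Set.preimage_id, Set.inter_self] at h3
    have h4 : ∫ x, A.indicator (fun _ => (1:ℝ)) x ^ 2 ∂μ = (μ A).toReal := by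
      rw [← h3]
      exact integral_congr_ae (Filter.Eventually.of_forall fun x => sq _)
    rw [h4]
    exact ENNReal.toReal_le_of_le_ofReal zero_le_one (by simpa using prob_le_one (μ := μ) (s := A))
  have h5 : ε / 2 * ∫ x, A.indicator (fun _ => (1:ℝ)) x ^ 2 ∂μ ≤ ε / 2 * 1 := by gcongr
  linarith

theorem hilbert_of_pd (R : Set ℕ) (h : PDN R) : HilbertRecurrence.{z} R := by
  intro H _ _ _ U x v hv ho ε hε
  obtain ⟨n, hn, hlt⟩ := h _ (pd_isometry U (x - v)) ε hε
  refine ⟨n, hn, ?_⟩
  have h1 := re_inner_split U x v hv (ho v hv) n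
  have h2 : (inner ℂ x (U^[n] x) : ℂ).re = RCLike.re (inner ℂ x (U^[n] x) : ℂ) := rfl
  rw [h2, h1]
  linarith

theorem nice_of_hilbertRec (R : Set ℕ) (h : HilbertRecurrence.{u} R) : NiceRecurrence.{u} R := by
  intro X _ μ _ T hT A hA _ ε hε
  exact nice_of_hilbert hT hA fun U x v hv ho => h _ U x v hv ho ε hε

theorem ergodic_of_nice (R : Set ℕ) (h : NiceRecurrence.{u} R) : ErgodicNiceRecurrence.{u} R := by
  intro X _ μ _ T hT A hA hA0 ε hε
  exact h X μ T hT.toMeasurePreserving A hA hA0 ε hε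

theorem vdc_of_pd (R : Set ℕ) (h : PDN R) : VanDerCorput R := by
  intro σ _ hz
  by_contra hne
  have hpos : 0 < (σ {0}).toReal := ENNReal.toReal_pos hne (measure_ne_top _ _)
  obtain ⟨n, hn, hlt⟩ := meas_of_pdN h σ (σ {0}).toReal hpos
  have h1 : Integrable (fun t : UnitAddCircle => fourier (n : ℤ) t) σ := by
    refine Integrable.mono' (g := fun _ => (1:ℝ)) (integrable_const _)
      (fourier (n : ℤ)).continuous.aestronglyMeasurable (Filter.Eventually.of_forall fun t => ?_)
    rw [fourier_apply, Circle.norm_coe]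
  have h2 : ∫ t : UnitAddCircle, (fourier (n : ℤ) t).re ∂σ = 0 := by
    have h3 := integral_re h1
    have h4 : ∫ t : UnitAddCircle, (fourier (n : ℤ) t).re ∂σ
        = ∫ t : UnitAddCircle, RCLike.re (fourier (n : ℤ) t) ∂σ := rfl
    rw [h4, h3, hz n hn]
    simp
  rw [h2] at hlt
  linarith

/-- **Main result.** The seven forms of nice recurrence agree (whatever the universes of the systems
and of the Hilbert spaces); such a set is a van der Corput set; and if it does not contain `0`, its
intersection with `kℕ`, minus any finite set, is again a set of nice recurrence. -/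
theorem result (R : Set ℕ) :
    List.TFAE [NiceRecurrence.{u} R, ErgodicNiceRecurrence.{v} R, UniformConditionalRecurrence.{w} R,
      HilbertRecurrence.{z} R, SpectralRecurrence R, PositiveDefiniteRecurrence R, CosineRecurrence R] ∧
    (ErgodicNiceRecurrence.{v} R → VanDerCorput R) ∧
    (0 ∉ R → ErgodicNiceRecurrence.{v} R → ∀ k : ℕ, 0 < k → ∀ F : Set ℕ, F.Finite →
      NiceRecurrence.{u} ({n | n ∈ R ∧ k ∣ n} \ F)) := by
  have hnice : ∀ R : Set ℕ, PDN R → NiceRecurrence.{u} R := fun R h =>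
    nice_of_uniform R (uniform_of_pd R h)
  refine ⟨?_, fun h => vdc_of_pd R (pd_of_ergodic R h), fun h0 h k hk F hF =>
    hnice _ (pdN_refine h0 (pd_of_ergodic R h) hk hF)⟩
  have h16 : NiceRecurrence.{u} R ↔ PositiveDefiniteRecurrence R :=
    ⟨fun h => pd_of_ergodic R (ergodic_of_nice R h), fun h => hnice R h⟩
  have h26 : ErgodicNiceRecurrence.{v} R ↔ PositiveDefiniteRecurrence R :=
    ⟨fun h => pd_of_ergodic R h, fun h =>
      ergodic_of_nice R (nice_of_uniform R (uniform_of_pd R h))⟩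
  have h36 : UniformConditionalRecurrence.{w} R ↔ PositiveDefiniteRecurrence R :=
    ⟨fun h => pd_of_ergodic R (ergodic_of_nice R (nice_of_uniform R h)), fun h => uniform_of_pd R h⟩
  have h46 : HilbertRecurrence.{z} R ↔ PositiveDefiniteRecurrence R :=
    ⟨fun h => pd_of_ergodic R (ergodic_of_nice R (nice_of_hilbertRec R h)), fun h => hilbert_of_pd R h⟩
  have h56 : SpectralRecurrence R ↔ PositiveDefiniteRecurrence R :=
    ⟨fun h => pdN_of_meas h, fun h σ _ ε hε => meas_of_pdN h σ ε hε⟩
  have h76 : CosineRecurrence R ↔ PositiveDefiniteRecurrence R :=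
    ⟨fun h => pdN_of_cos h, fun h ε hε => cos_of_pdN h ε hε⟩
  tfae_have 1 ↔ 6 := h16
  tfae_have 2 ↔ 6 := h26
  tfae_have 3 ↔ 6 := h36
  tfae_have 4 ↔ 6 := h46
  tfae_have 5 ↔ 6 := h56
  tfae_have 7 ↔ 6 := h76
  tfae_finish

end Pool.Agent.Results.MP_e00215_an.SpectralNiceRecurrence
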